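import Mathlib
import Pool.Agent.Y391.SL.Stab

/-!
Slabs of the cube of half-width `0 < t < 2√2 - 2`: the coordinate directions are the only
minimizers, with a dimension free stability estimate of the sharp order.
-/

set_option autoImplicit false

open MeasureTheory

namespace Pool.Agent.Results.MP_bec814_gt.UniqueAndStable

/-- `V(a,t)`: the Lebesgue measure of the slab of the cube `[-1,1]^n` of half-width `t`
in direction `a`. -/
noncomputable def V {n : ℕ} (a : Fin n → ℝ) (t : ℝ) : ENNReal :=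
  volume {x : Fin n → ℝ | (∀ i, |x i| ≤ 1) ∧ |∑ i, x i * a i| ≤ t}

/-- the first coordinate vector `(1,0,...,0)` -/
def f1 (n : ℕ) : Fin n → ℝ := fun i => if (i : ℕ) = 0 then 1 else 0

theorem V_eq {n : ℕ} (a : Fin n → ℝ) (t : ℝ) :
    V a t = volume (Pool.Agent.Helper452.slab a t) := by
  unfold V Pool.Agent.Helper452.slab
  simp_rw [mul_comm]

theorem V_toReal {n : ℕ} (a : Fin n → ℝ) (t : ℝ) :
    (V a t).toReal = Pool.Agent.Y391.SL.v a t := by
  rw [V_eq]
  rfl

theorem V_ne_top {n : ℕ} (a : Fin n → ℝ) (t : ℝ) : V a t ≠ ⊤ := by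
  rw [V_eq]
  exact Pool.Agent.Helper452.slab_volume_ne_top a t

/-- the value of the slab volume in the coordinate directions -/
theorem V_coord {n : ℕ} (a : Fin n → ℝ) (j : Fin n) (ha : ∀ i, |a i| = if i = j then 1 else 0)
    (t : ℝ) (ht0 : 0 ≤ t) (ht1 : t ≤ 1) : V a t = ENNReal.ofReal (2 ^ n * t) := by
  have haj : |a j| = 1 := by
    rw [ha j, if_pos rfl]
  have hai : ∀ i, i ≠ j → a i = 0 := fun i hi => by
    have := ha i
    rw [if_neg hi] at this
    exact abs_eq_zero.1 this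
  unfold V
  have hset : {x : Fin n → ℝ | (∀ i, |x i| ≤ 1) ∧ |∑ i, x i * a i| ≤ t}
      = Set.Icc (fun i : Fin n => if i = j then -t else -1)
        (fun i : Fin n => if i = j then t else 1) := by
    ext x
    rw [Set.mem_Icc, Pi.le_def, Pi.le_def, Set.mem_ofPred_eq]
    have hsum : ∑ i, x i * a i = x j * a j := by
      rw [Finset.sum_eq_single j]
      · intro i _ hi
        rw [hai i hi, mul_zero]
      · intro h
        exact absurd (Finset.mem_univ j) h
    rw [hsum, abs_mul, haj, mul_one]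
    constructor
    · rintro ⟨h1, h2⟩
      refine ⟨fun i => ?_, fun i => ?_⟩
      · by_cases h : i = j
        · subst h
          rw [if_pos rfl]
          exact (abs_le.1 h2).1
        · rw [if_neg h]
          exact (abs_le.1 (h1 i)).1
      · by_cases h : i = j
        · subst h
          rw [if_pos rfl]
          exact (abs_le.1 h2).2
        · rw [if_neg h]
          exact (abs_le.1 (h1 i)).2
    · rintro ⟨h1, h2⟩
      have e1 := h1 j
      have e2 := h2 j
      rw [if_pos rfl] at e1 e2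
      refine ⟨fun i => ?_, abs_le.2 ⟨e1, e2⟩⟩
      by_cases h : i = j
      · subst h
        exact abs_le.2 ⟨by linarith, by linarith⟩
      · have g1 := h1 i
        have g2 := h2 i
        rw [if_neg h] at g1 g2
        exact abs_le.2 ⟨g1, g2⟩
  rw [hset, Real.volume_Icc_pi]
  have hprod : ∀ i : Fin n, ENNReal.ofReal ((if i = j then t else 1) - (if i = j then -t else -1))
      = if i = j then ENNReal.ofReal (2 * t) else ENNReal.ofReal 2 := by
    intro i
    split_ifs
    · congr 1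
      ring
    · congr 1
      norm_num
  simp_rw [hprod]
  rw [← Finset.mul_prod_erase _ _ (Finset.mem_univ j), if_pos rfl]
  have hrest : ∏ i ∈ Finset.univ.erase j,
      (if i = j then ENNReal.ofReal (2 * t) else ENNReal.ofReal 2) = ENNReal.ofReal 2 ^ (n - 1) := by
    rw [Finset.prod_congr rfl (g := fun _ => ENNReal.ofReal 2)]
    · rw [Finset.prod_const, Finset.card_erase_of_mem (Finset.mem_univ j), Finset.card_univ,
        Fintype.card_fin]
    · intro i hi
      rw [if_neg (Finset.ne_of_mem_erase hi)]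
  have hn : 1 ≤ n := Nat.succ_le_of_lt (lt_of_le_of_lt (Nat.zero_le _) j.isLt)
  rw [hrest, ← ENNReal.ofReal_pow (by norm_num), ← ENNReal.ofReal_mul (by linarith)]
  congr 1
  obtain ⟨m, rfl⟩ : ∃ m, n = m + 1 := ⟨n - 1, by omega⟩
  rw [Nat.add_sub_cancel, pow_succ]
  ring

theorem f1_coord (n : ℕ) (hn : 1 ≤ n) :
    ∀ i, |f1 n i| = if i = (⟨0, hn⟩ : Fin n) then 1 else 0 := by
  intro i
  unfold f1
  by_cases h : (i : ℕ) = 0
  · rw [if_pos h, if_pos (Fin.ext h), abs_one]
  · rw [if_neg h, if_neg (fun e => h (by rw [e])), abs_zero]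

theorem V_f1 (n : ℕ) (hn : 1 ≤ n) (t : ℝ) (ht0 : 0 ≤ t) (ht1 : t ≤ 1) :
    V (f1 n) t = ENNReal.ofReal (2 ^ n * t) :=
  V_coord (f1 n) ⟨0, hn⟩ (f1_coord n hn) t ht0 ht1

theorem V_f1' (n : ℕ) (hn : 1 ≤ n) (t : ℝ) (ht0 : 0 ≤ t) (ht1 : t ≤ 1) :
    (V (f1 n) t).toReal = 2 ^ n * t := by
  rw [V_f1 n hn t ht0 ht1, ENNReal.toReal_ofReal (by positivity)]

/-- For every dimension `n ≥ 1` and every half-width `0 < t ≤ 2√2 - 2`:
among all unit vectors `a` the slab volume `V(a,t)` is minimal at the coordinate vector `f1`;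
`V(a,t) ≥ V(f1,t) (1 + (1 - t/(2√2-2)) (1 - max |a_i|) / 60)`, a bound free of the dimension;
`V(a,t) ≥ V(f1,t) + t (1 - t/(2√2-2)) ∫ (<a,x>² - 1)₊ dx` (over the cube); and for
`t < 2√2 - 2` the minimizers are exactly the vectors `± e_j`. -/
theorem result (n : ℕ) (hn : 1 ≤ n) (t : ℝ) (ht0 : 0 < t) (ht : t ≤ 2 * Real.sqrt 2 - 2) :
    IsLeast ((fun a => V a t) '' {a : Fin n → ℝ | ∑ i, a i ^ 2 = 1}) (V (f1 n) t) ∧
    (∀ a : Fin n → ℝ, ∑ i, a i ^ 2 = 1 →
      (V (f1 n) t).toReal * (1 + (1 - t / (2 * Real.sqrt 2 - 2)) * (1 - ⨆ i, |a i|) / 60)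
        ≤ (V a t).toReal) ∧
    (∀ a : Fin n → ℝ, ∑ i, a i ^ 2 = 1 →
      (V (f1 n) t).toReal + t * (1 - t / (2 * Real.sqrt 2 - 2)) *
        ∫ x in {x : Fin n → ℝ | ∀ i, |x i| ≤ 1}, max ((∑ i, x i * a i) ^ 2 - 1) 0
        ≤ (V a t).toReal) ∧
    (t < 2 * Real.sqrt 2 - 2 → ∀ a : Fin n → ℝ, ∑ i, a i ^ 2 = 1 →
      (V a t = V (f1 n) t ↔ ∃ j, ∀ i, |a i| = if i = j then 1 else 0)) := by
  have hT : Pool.Agent.Helper452.T = 2 * Real.sqrt 2 - 2 := rfl
  have hT1 := Pool.Agent.Helper452.T_gt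
  have hT2 := Pool.Agent.Helper452.T_lt
  rw [← hT] at ht ⊢
  have ht1 : t ≤ 1 := by linarith
  haveI : Nonempty (Fin n) := ⟨⟨0, hn⟩⟩
  have hp : (0 : ℝ) < 2 ^ n := by positivity
  have hsup : ∀ a : Fin n → ℝ, ∑ i, a i ^ 2 = 1 →
      (∀ i, |a i| ≤ ⨆ i, |a i|) ∧ (⨆ i, |a i|) ≤ 1 ∧ ∃ j, |a j| = ⨆ i, |a i| := by
    intro a ha
    have h1 : ∀ i, |a i| ≤ ⨆ i, |a i| := fun i =>
      le_ciSup (f := fun i => |a i|) (Set.finite_range _).bddAbove i
    refine ⟨h1, ciSup_le fun i => ?_, ?_⟩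
    · have e := Finset.single_le_sum (f := fun i => a i ^ 2) (fun i _ => sq_nonneg _)
        (Finset.mem_univ i)
      rw [ha] at e
      have : a i ^ 2 ≤ 1 := e
      exact (sq_le_one_iff_abs_le_one _).1 this
    · obtain ⟨j, hj⟩ := Finite.exists_max (fun i => |a i|)
      exact ⟨j, le_antisymm (h1 j) (ciSup_le hj)⟩
  have hstab : ∀ a : Fin n → ℝ, ∑ i, a i ^ 2 = 1 →
      (V (f1 n) t).toReal * (1 + (1 - t / Pool.Agent.Helper452.T) * (1 - ⨆ i, |a i|) / 60)
        ≤ (V a t).toReal := by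
    intro a ha
    rw [V_f1' n hn t ht0.le ht1, V_toReal]
    exact Pool.Agent.Y391.SL.stab a ha ht0 ht (hsup a ha).1 (hsup a ha).2.1
  refine ⟨⟨⟨f1 n, ?_, rfl⟩, ?_⟩, hstab, ?_, ?_⟩
  · obtain ⟨m, rfl⟩ : ∃ m, n = m + 1 := ⟨n - 1, by omega⟩
    rw [Set.mem_ofPred_eq, Fin.sum_univ_succ]
    simp [f1]
  · rintro v ⟨a, ha, rfl⟩
    have h := Pool.Agent.Helper452.slab_volume_ge a ha t ht0 ht
    rw [V_f1 n hn t ht0.le ht1]
    show ENNReal.ofReal (2 ^ n * t) ≤ V a t
    rw [ENNReal.ofReal_le_iff_le_toReal (V_ne_top a t), V_toReal]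
    exact h
  · intro a ha
    rw [V_f1' n hn t ht0.le ht1, V_toReal]
    have h := Pool.Agent.Y391.SL.stab2 a ha ht0 ht
    have e : {x : Fin n → ℝ | ∀ i, |x i| ≤ 1} = Pool.Agent.Helper452.cube n := by
      ext x
      exact (Pool.Agent.Helper452.mem_cube_iff x).symm
    rw [e]
    have e2 : ∀ x : Fin n → ℝ, ∑ i, x i * a i = ∑ i, a i * x i := fun x =>
      Finset.sum_congr rfl fun i _ => mul_comm _ _
    simp_rw [e2]
    exact h
  · intro htT a ha
    constructor
    · intro h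
      have h1 := hstab a ha
      rw [h, V_f1' n hn t ht0.le ht1] at h1
      obtain ⟨h2, h3, j, h4⟩ := hsup a ha
      have h5 : (1 - t / Pool.Agent.Helper452.T) * (1 - ⨆ i, |a i|) ≤ 0 := by
        have hpt : 0 < 2 ^ n * t := by positivity
        have : 2 ^ n * t * ((1 - t / Pool.Agent.Helper452.T) * (1 - ⨆ i, |a i|) / 60) ≤
            2 ^ n * t * 0 := by linarith
        have := le_of_mul_le_mul_left this hpt
        linarith
      have h6 : 0 < 1 - t / Pool.Agent.Helper452.T := by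
        rw [sub_pos, div_lt_one (by linarith)]
        exact htT
      have h7 : (⨆ i, |a i|) = 1 := by
        refine le_antisymm h3 ?_
        by_contra hc
        push Not at hc
        have := mul_pos h6 (sub_pos.2 hc)
        linarith
      rw [h7] at h4
      refine ⟨j, fun i => ?_⟩
      by_cases hij : i = j
      · rw [if_pos hij, hij, h4]
      · rw [if_neg hij]
        have e := Finset.add_sum_erase Finset.univ (fun i => a i ^ 2) (Finset.mem_univ j)
        rw [ha] at e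
        have e1 : a j ^ 2 = 1 := by
          rw [← sq_abs, h4, one_pow]
        have e2 : ∑ i ∈ Finset.univ.erase j, a i ^ 2 = 0 := by
          have e3 : a j ^ 2 + ∑ i ∈ Finset.univ.erase j, a i ^ 2 = 1 := e
          linarith
        have e4 := (Finset.sum_eq_zero_iff_of_nonneg (fun i _ => sq_nonneg (a i))).1 e2 i
          (Finset.mem_erase.2 ⟨hij, Finset.mem_univ i⟩)
        rw [pow_eq_zero_iff (by norm_num)] at e4
        rw [e4, abs_zero]
    · rintro ⟨j, hj⟩
      rw [V_coord a j hj t ht0.le ht1, V_f1 n hn t ht0.le ht1]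

end Pool.Agent.Results.MP_bec814_gt.UniqueAndStable
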